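import Mathlib

set_option autoImplicit false

namespace Pool.Agent.Results.MP_651eca_nt.FullIdentity

open Finset

/-- The entries of Shapiro's Catalan triangle, `B n k = (k / n) * C(2n, n - k)`
(used only for `1 ≤ k ≤ n`). -/
def B (n k : ℕ) : ℚ := (k : ℚ) / (n : ℚ) * ((2 * n).choose (n - k) : ℚ)

/-- sanity check: the examples given with the question -/
theorem B_examples : B 1 1 = 1 ∧ B 2 1 = 2 ∧ B 2 2 = 1 := by
  refine ⟨?_, ?_, ?_⟩ <;> norm_num [B, Nat.choose]

/-- `C(2n, n+k)` as a rational. -/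
def c (n k : ℕ) : ℚ := ((2 * n).choose (n + k) : ℚ)

theorem c_succ (n k : ℕ) : c n (k + 1) * ((n : ℚ) + k + 1) = c n k * ((n : ℚ) - k) := by
  unfold c
  rcases Nat.lt_or_ge n k with h | h
  · rw [Nat.choose_eq_zero_of_lt (by omega : 2 * n < n + (k + 1)),
      Nat.choose_eq_zero_of_lt (by omega : 2 * n < n + k)]
    simp
  · have h1 := Nat.choose_succ_right_eq (2 * n) (n + k)
    have h2 : 2 * n - (n + k) = n - k := by omega
    rw [h2] at h1
    have h3 : (((2 * n).choose (n + k + 1) * (n + k + 1) : ℕ) : ℚ) =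
        (((2 * n).choose (n + k) * (n - k) : ℕ) : ℚ) := by exact_mod_cast h1
    push_cast [Nat.cast_sub h] at h3
    rw [show n + (k + 1) = n + k + 1 by ring]
    linarith

/-- `(M² - k²) C(2M, M+k) = 2M(2M-1) C(2m, m+k)` with `M = m+1`. -/
theorem c_up (m k : ℕ) : ((m : ℚ) + 1 + k) * ((m : ℚ) + 1 - k) * c (m + 1) k =
    2 * ((m : ℚ) + 1) * (2 * m + 1) * c m k := by
  unfold c
  rcases Nat.lt_trichotomy (m + 1) k with h | h | h
  · rw [Nat.choose_eq_zero_of_lt (by omega : 2 * (m + 1) < m + 1 + k),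
      Nat.choose_eq_zero_of_lt (by omega : 2 * m < m + k)]
    simp
  · subst h
    rw [Nat.choose_eq_zero_of_lt (by omega : 2 * m < m + (m + 1))]
    push_cast
    ring
  · -- k ≤ m
    have hk : k ≤ m := by omega
    -- (2m+2).choose (m+1+k) * (m+1+k) = (2m+1).choose (m+k) * (2m+2)
    have h1 := Nat.add_one_mul_choose_eq (2 * m + 1) (m + k)
    -- h1 : (2 * m + 1 + 1) * (2 * m + 1).choose (m + k) = (2 * m + 1 + 1).choose (m + k + 1) * (m + k + 1)
    have h2 := Nat.choose_mul_succ_eq (2 * m) (m + k)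
    -- h2 : (2 * m).choose (m + k) * (2 * m + 1) = (2 * m + 1).choose (m + k) * (2 * m + 1 - (m + k))
    have h3 : 2 * m + 1 - (m + k) = m + 1 - k := by omega
    rw [h3] at h2
    have h1' : ((2 : ℚ) * m + 1 + 1) * ((2 * m + 1).choose (m + k) : ℚ) =
        ((2 * m + 1 + 1).choose (m + k + 1) : ℚ) * ((m : ℚ) + k + 1) := by exact_mod_cast h1
    have h2' : (((2 * m).choose (m + k) * (2 * m + 1) : ℕ) : ℚ) =
        (((2 * m + 1).choose (m + k) * (m + 1 - k) : ℕ) : ℚ) := by exact_mod_cast h2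
    push_cast [Nat.cast_sub (show k ≤ m + 1 by omega)] at h2'
    have e1 : 2 * (m + 1) = 2 * m + 1 + 1 := by ring
    have e2 : m + 1 + k = m + k + 1 := by ring
    rw [e1, e2]
    linear_combination -((m : ℚ) + 1 - k) * h1' - (2 * (m : ℚ) + 2) * h2'

/-- The half sum `Σ k³ C(2n,n+k)² C(2m,m+k)`. -/
def V (n m : ℕ) : ℚ := ∑ k ∈ Icc 1 n, (k : ℚ) ^ 3 * c n k ^ 2 * c m k

/-- the certificate -/
def g (n M k : ℕ) : ℚ :=
  -(((n : ℚ) + 2 * M) * ((k : ℚ) ^ 2 - k) + n * M) * ((n : ℚ) + k) ^ 2 * ((M : ℚ) + k) *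
    c n k ^ 2 * c M k

theorem g_telescope (n m k : ℕ) :
    g n (m + 1) (k + 1) - g n (m + 1) k =
      2 * (((n : ℚ) + (m + 1)) ^ 2 * ((n : ℚ) + 2 * m) * ((k : ℚ) ^ 3 * c n k ^ 2 * c (m + 1) k) -
        ((n : ℚ) + 2 * (m + 1)) * (2 * ((m : ℚ) + 1) * (2 * m + 1)) *
          ((k : ℚ) ^ 3 * c n k ^ 2 * c m k)) := by
  have h1 := c_succ n k
  have h2 := c_succ (m + 1) k
  have h3 := c_up m k
  unfold g
  push_cast at *
  have e1 : ((n : ℚ) + (k + 1)) ^ 2 * c n (k + 1) ^ 2 = (c n k * ((n : ℚ) - k)) ^ 2 := by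
    rw [← h1]; ring
  have e2 : ((m : ℚ) + 1 + (k + 1)) * c (m + 1) (k + 1) =
      c (m + 1) k * ((m : ℚ) + 1 - k) := by
    rw [← h2]; ring
  have e3 : -(((n : ℚ) + 2 * (m + 1)) * (((k : ℚ) + 1) ^ 2 - (k + 1)) + n * (m + 1)) *
      ((n : ℚ) + (k + 1)) ^ 2 * ((m : ℚ) + 1 + (k + 1)) * c n (k + 1) ^ 2 * c (m + 1) (k + 1) =
      -(((n : ℚ) + 2 * (m + 1)) * (((k : ℚ) + 1) ^ 2 - (k + 1)) + n * (m + 1)) *
      (((n : ℚ) + (k + 1)) ^ 2 * c n (k + 1) ^ 2) *
        (((m : ℚ) + 1 + (k + 1)) * c (m + 1) (k + 1)) := by ring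
  rw [e3, e1, e2]
  have e4 : ((n : ℚ) + 2 * (m + 1)) * (2 * ((m : ℚ) + 1) * (2 * m + 1)) *
          ((k : ℚ) ^ 3 * c n k ^ 2 * c m k) =
          ((n : ℚ) + 2 * (m + 1)) * ((k : ℚ) ^ 3 * c n k ^ 2) *
            (2 * ((m : ℚ) + 1) * (2 * m + 1) * c m k) := by ring
  rw [e4, ← h3]
  ring

/-- The recurrence in `m`. -/
theorem V_rec (n m : ℕ) :
    2 * (((n : ℚ) + (m + 1)) ^ 2 * ((n : ℚ) + 2 * m) * V n (m + 1) -
      ((n : ℚ) + 2 * (m + 1)) * (2 * ((m : ℚ) + 1) * (2 * m + 1)) * V n m) =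
      (n : ℚ) ^ 3 * ((m : ℚ) + 1) ^ 2 * c n 0 ^ 2 * c (m + 1) 0 := by
  have hsum : ∑ k ∈ Icc 1 n, (g n (m + 1) (k + 1) - g n (m + 1) k) =
      g n (m + 1) (n + 1) - g n (m + 1) 1 := by
    have : Icc 1 n = Ico 1 (n + 1) := by ext; simp
    rw [this, Finset.sum_Ico_sub (fun k => g n (m + 1) k) (by omega)]
  have h0 : g n (m + 1) (n + 1) = 0 := by
    have : c n (n + 1) = 0 := by
      unfold c
      rw [Nat.choose_eq_zero_of_lt (by omega : 2 * n < n + (n + 1))]
      simp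
    simp [g, this]
  have h1 : g n (m + 1) 1 = -((n : ℚ) * (m + 1)) * (c n 0 * n) ^ 2 * (c (m + 1) 0 * (m + 1)) := by
    have a := c_succ n 0
    have b := c_succ (m + 1) 0
    push_cast at a b
    simp only [add_zero, sub_zero] at a b
    rw [← a, ← b]
    unfold g
    push_cast
    ring
  rw [h0, h1] at hsum
  have hL : ∑ k ∈ Icc 1 n, (g n (m + 1) (k + 1) - g n (m + 1) k) =
      2 * (((n : ℚ) + (m + 1)) ^ 2 * ((n : ℚ) + 2 * m) * V n (m + 1) -
      ((n : ℚ) + 2 * (m + 1)) * (2 * ((m : ℚ) + 1) * (2 * m + 1)) * V n m) := by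
    rw [Finset.sum_congr rfl (fun k _ => g_telescope n m k)]
    rw [← Finset.mul_sum, Finset.sum_sub_distrib, ← Finset.mul_sum, ← Finset.mul_sum]
    rfl
  rw [← hL, hsum]
  ring

/-- The sum on the right in the case `m ≤ n`. -/
def R (n m : ℕ) : ℚ := ∑ j ∈ range m, ((n + j).choose n : ℚ) * ((n + j).choose (n - 1) : ℚ)

theorem choose_pred (n m : ℕ) (hn : 1 ≤ n) :
    ((n + m).choose (n - 1) : ℚ) * ((m : ℚ) + 1) = ((n + m).choose n : ℚ) * n := by
  obtain ⟨p, rfl⟩ : ∃ p, n = p + 1 := ⟨n - 1, by omega⟩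
  have h := Nat.choose_succ_right_eq (p + 1 + m) p
  have h2 : p + 1 + m - p = m + 1 := by omega
  rw [h2] at h
  have : ((p + 1 + m).choose (p + 1) : ℚ) * ((p : ℚ) + 1) =
      ((p + 1 + m).choose p : ℚ) * ((m : ℚ) + 1) := by exact_mod_cast h
  simp only [Nat.add_sub_cancel]
  push_cast
  linarith

theorem choose_up (n m : ℕ) :
    ((n + (m + 1)).choose n : ℚ) * ((m : ℚ) + 1) = ((n + m).choose n : ℚ) * ((n : ℚ) + (m + 1)) := by
  have h := Nat.choose_mul_succ_eq (n + m) n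
  have h2 : n + m + 1 - n = m + 1 := by omega
  rw [h2] at h
  have : ((n + m).choose n : ℚ) * ((n : ℚ) + m + 1) = ((n + m + 1).choose n : ℚ) * ((m : ℚ) + 1) := by
    exact_mod_cast h
  rw [show n + (m + 1) = n + m + 1 by ring]
  linarith

theorem c_zero_up (m : ℕ) : c (m + 1) 0 * ((m : ℚ) + 1) = 2 * (2 * m + 1) * c m 0 := by
  have h := c_up m 0
  push_cast at h
  have hm : (m : ℚ) + 1 ≠ 0 := by positivity
  apply mul_left_cancel₀ hm
  linarith

/-- First identity. -/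
theorem ident1 (n m : ℕ) (hn : 1 ≤ n) :
    2 * ((n + m).choose n : ℚ) ^ 2 * V n m =
      (n : ℚ) ^ 2 * c n 0 ^ 2 * c m 0 *
        (m * ((n + m).choose n : ℚ) ^ 2 - ((n : ℚ) + 2 * m) * R n m) := by
  induction m with
  | zero =>
    have : V n 0 = 0 := by
      unfold V
      apply Finset.sum_eq_zero
      intro k hk
      rw [Finset.mem_Icc] at hk
      have : c 0 k = 0 := by
        unfold c
        rw [Nat.choose_eq_zero_of_lt (by omega : 2 * 0 < 0 + k)]
        simp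
      simp [this]
    rw [this]
    simp [R]
  | succ m ih =>
    have hrec := V_rec n m
    have hR : R n (m + 1) = R n m + ((n + m).choose n : ℚ) * ((n + m).choose (n - 1) : ℚ) := by
      unfold R
      rw [Finset.sum_range_succ]
    have h1 := choose_pred n m hn
    have h2 := choose_up n m
    have h3 := c_zero_up m
    have hm : (m : ℚ) + 1 ≠ 0 := by positivity
    have hn0 : (0 : ℚ) < n := by exact_mod_cast hn
    have hnm : (n : ℚ) + 2 * m ≠ 0 := by positivity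
    set C : ℚ := ((n + m).choose n : ℚ) with hC
    set C' : ℚ := ((n + (m + 1)).choose n : ℚ) with hC'
    set P : ℚ := ((n + m).choose (n - 1) : ℚ) with hP
    have hP' : P = C * n / (m + 1) := by
      field_simp
      linarith
    have hC'' : C' = C * (n + (m + 1)) / (m + 1) := by
      field_simp
      linarith
    have hc : c m 0 = c (m + 1) 0 * (m + 1) / (2 * (2 * m + 1)) := by
      field_simp
      linarith
    rw [hR, hC'', hP']
    push_cast
    have key : (m + 1 : ℚ) ^ 2 * ((n : ℚ) + 2 * m) ≠ 0 := by positivity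
    apply mul_left_cancel₀ key
    have e1 : ((m : ℚ) + 1) ^ 2 * ((n : ℚ) + 2 * m) *
        (2 * (C * (n + (m + 1)) / (m + 1)) ^ 2 * V n (m + 1)) =
        C ^ 2 * (2 * (((n : ℚ) + (m + 1)) ^ 2 * ((n : ℚ) + 2 * m) * V n (m + 1))) := by
      field_simp
    have e2 : 2 * (((n : ℚ) + (m + 1)) ^ 2 * ((n : ℚ) + 2 * m) * V n (m + 1)) =
        2 * (((n : ℚ) + 2 * (m + 1)) * (2 * ((m : ℚ) + 1) * (2 * m + 1)) * V n m) +
        (n : ℚ) ^ 3 * ((m : ℚ) + 1) ^ 2 * c n 0 ^ 2 * c (m + 1) 0 := by linarith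
    rw [e1, e2]
    have e3 : C ^ 2 * (2 * (((n : ℚ) + 2 * (m + 1)) * (2 * ((m : ℚ) + 1) * (2 * m + 1)) * V n m) +
        (n : ℚ) ^ 3 * ((m : ℚ) + 1) ^ 2 * c n 0 ^ 2 * c (m + 1) 0) =
        ((n : ℚ) + 2 * (m + 1)) * (2 * ((m : ℚ) + 1) * (2 * m + 1)) * (2 * C ^ 2 * V n m) +
        C ^ 2 * ((n : ℚ) ^ 3 * ((m : ℚ) + 1) ^ 2 * c n 0 ^ 2 * c (m + 1) 0) := by ring
    rw [e3, ih, hc]
    field_simp
    ring

/-- The sum on the right in the case `n ≤ m`. -/
def X (n m : ℕ) : ℚ := ∑ j ∈ range n, ((m + j).choose m : ℚ) * ((n + j).choose (n - 1) : ℚ)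

theorem X_rec (n m : ℕ) (hn : 1 ≤ n) :
    ((n : ℚ) + m + 1) * X n (m + 1) - m * X n m =
      (n : ℚ) * ((2 * n).choose n : ℚ) * ((n + m).choose (n - 1) : ℚ) := by
  -- the certificate
  let G : ℕ → ℚ := fun j => (j : ℚ) * (j + 1) / (m + 1) *
    (((m + j).choose m : ℚ) * ((n + j).choose (n - 1) : ℚ))
  have hstep : ∀ j : ℕ, G (j + 1) - G j =
      ((n : ℚ) + m + 1) * (((m + 1 + j).choose (m + 1) : ℚ) * ((n + j).choose (n - 1) : ℚ)) -
        m * (((m + j).choose m : ℚ) * ((n + j).choose (n - 1) : ℚ)) := by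
    intro j
    have hm : (m : ℚ) + 1 ≠ 0 := by positivity
    have hj : (j : ℚ) + 1 ≠ 0 := by positivity
    have hj2 : (j : ℚ) + 2 ≠ 0 := by positivity
    -- C(m+j+1, m) (j+1) = C(m+j, m) (m+j+1)
    have a1 := choose_up m j
    -- C(n+j+1, n-1) (j+2) = C(n+j,n-1) (n+j+1)
    have a2 : ((n + (j + 1)).choose (n - 1) : ℚ) * ((j : ℚ) + 2) =
        ((n + j).choose (n - 1) : ℚ) * ((n : ℚ) + (j + 1)) := by
      have := choose_up (n - 1) (j + 1)
      rw [show n - 1 + (j + 1 + 1) = n + (j + 1) by omega,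
        show n - 1 + (j + 1) = n + j by omega] at this
      push_cast [Nat.cast_sub hn] at this
      linarith
    -- C(m+1+j, m+1) (m+1) = C(m+j,m) (m+1+j)
    have a3 : ((m + 1 + j).choose (m + 1) : ℚ) * ((m : ℚ) + 1) =
        ((m + j).choose m : ℚ) * ((m : ℚ) + 1 + j) := by
      have h := Nat.add_one_mul_choose_eq (m + j) m
      rw [show m + 1 + j = m + j + 1 by ring]
      have : ((m : ℚ) + j + 1) * ((m + j).choose m : ℚ) =
          ((m + j + 1).choose (m + 1) : ℚ) * ((m : ℚ) + 1) := by exact_mod_cast h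
      linarith
    set A : ℚ := ((m + j).choose m : ℚ)
    set D : ℚ := ((n + j).choose (n - 1) : ℚ)
    have b1 : ((m + (j + 1)).choose m : ℚ) = A * ((m : ℚ) + (j + 1)) / (j + 1) := by
      field_simp
      linarith
    have b2 : ((n + (j + 1)).choose (n - 1) : ℚ) = D * ((n : ℚ) + (j + 1)) / (j + 2) := by
      field_simp
      linarith
    have b3 : ((m + 1 + j).choose (m + 1) : ℚ) = A * ((m : ℚ) + 1 + j) / (m + 1) := by
      field_simp
      linarith
    simp only [G]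
    rw [b1, b2, b3]
    push_cast
    field_simp
    ring
  have hsum : ∑ j ∈ range n, (G (j + 1) - G j) = G n - G 0 := Finset.sum_range_sub G n
  rw [Finset.sum_congr rfl (fun j _ => hstep j), Finset.sum_sub_distrib, ← Finset.mul_sum,
    ← Finset.mul_sum] at hsum
  have hX1 : X n (m + 1) = ∑ j ∈ range n,
      (((m + 1 + j).choose (m + 1) : ℚ) * ((n + j).choose (n - 1) : ℚ)) := rfl
  have hX2 : X n m = ∑ j ∈ range n,
      (((m + j).choose m : ℚ) * ((n + j).choose (n - 1) : ℚ)) := rfl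
  rw [hX1, hX2, hsum]
  have hm : (m : ℚ) + 1 ≠ 0 := by positivity
  have hn1 : (n : ℚ) + 1 ≠ 0 := by positivity
  have d1 := choose_pred n n hn
  have d2 := choose_pred n m hn
  have d3 : ((m + n).choose m : ℚ) = ((n + m).choose n : ℚ) := by
    rw [add_comm m n, Nat.choose_symm_add]
  have d4 : ((n + n).choose n : ℚ) = ((2 * n).choose n : ℚ) := by rw [two_mul]
  rw [d4] at d1
  have d1' : ((n + n).choose (n - 1) : ℚ) = ((2 * n).choose n : ℚ) * n / (n + 1) := by
    field_simp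
    linarith
  have d2' : ((n + m).choose (n - 1) : ℚ) = ((n + m).choose n : ℚ) * n / (m + 1) := by
    field_simp
    linarith
  simp only [G]
  rw [d3, d1', d2']
  field_simp
  simp

/-- Second identity: comparison of the two sums. -/
theorem ident2 (n m : ℕ) (hn : 1 ≤ n) :
    (m : ℚ) * ((n + m).choose n : ℚ) * X n m = (n : ℚ) * ((2 * n).choose n : ℚ) * R n m := by
  induction m with
  | zero => simp [R]
  | succ m ih =>
    have hR : R n (m + 1) = R n m + ((n + m).choose n : ℚ) * ((n + m).choose (n - 1) : ℚ) := by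
      unfold R
      rw [Finset.sum_range_succ]
    have h1 := X_rec n m hn
    have h2 := choose_up n m
    rw [hR, mul_add, ← ih]
    push_cast
    have e : ((m : ℚ) + 1) * ((n + (m + 1)).choose n : ℚ) * X n (m + 1) =
        (((n + (m + 1)).choose n : ℚ) * ((m : ℚ) + 1)) * X n (m + 1) := by ring
    rw [e, h2]
    have e2 : ((n + m).choose n : ℚ) * ((n : ℚ) + (m + 1)) * X n (m + 1) =
        ((n + m).choose n : ℚ) * (((n : ℚ) + m + 1) * X n (m + 1)) := by ring
    have e3 : ((n : ℚ) + m + 1) * X n (m + 1) = m * X n m +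
      (n : ℚ) * ((2 * n).choose n : ℚ) * ((n + m).choose (n - 1) : ℚ) := by linarith
    rw [e2, e3]
    ring

/-- The left side in terms of `V`. -/
theorem lhs_eq (n m : ℕ) (hn : 1 ≤ n) (hm : 1 ≤ m) :
    ∑ k ∈ Icc 1 (min n m), B n k ^ 2 * B m k = V n m / ((n : ℚ) ^ 2 * m) := by
  have h1 : ∑ k ∈ Icc 1 (min n m), B n k ^ 2 * B m k =
      ∑ k ∈ Icc 1 (min n m), (k : ℚ) ^ 3 * c n k ^ 2 * c m k / ((n : ℚ) ^ 2 * m) := by
    apply Finset.sum_congr rfl
    intro k hk
    rw [Finset.mem_Icc, le_min_iff] at hk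
    obtain ⟨hk1, hkn, hkm⟩ := hk
    have hn0 : (n : ℚ) ≠ 0 := by positivity
    have hm0 : (m : ℚ) ≠ 0 := by positivity
    have e1 : ((2 * n).choose (n - k) : ℚ) = c n k := by
      unfold c
      rw [← Nat.choose_symm_of_eq_add (show 2 * n = (n - k) + (n + k) by omega)]
    have e2 : ((2 * m).choose (m - k) : ℚ) = c m k := by
      unfold c
      rw [← Nat.choose_symm_of_eq_add (show 2 * m = (m - k) + (m + k) by omega)]
    unfold B
    rw [e1, e2]
    field_simp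
  rw [h1, ← Finset.sum_div]
  congr 1
  unfold V
  apply Finset.sum_subset
  · intro k hk
    rw [Finset.mem_Icc, le_min_iff] at hk
    rw [Finset.mem_Icc]
    omega
  · intro k hk hk2
    rw [Finset.mem_Icc] at hk
    rw [Finset.mem_Icc, le_min_iff] at hk2
    have : c m k = 0 := by
      unfold c
      rw [Nat.choose_eq_zero_of_lt (by omega : 2 * m < m + k)]
      simp
    simp [this]

/-- **Full answer to Q1**: the mixed cubic identity for Shapiro's Catalan triangle. -/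
theorem result (n m : ℕ) (hn : 1 ≤ n) (hm : 1 ≤ m) :
    ∑ k ∈ Icc 1 (min n m), B n k ^ 2 * B m k =
      1 / 2 * ((2 * n).choose n : ℚ) ^ 2 * ((2 * m).choose m : ℚ) *
        (1 - ((n : ℚ) + 2 * m) / ((min n m : ℕ) : ℚ) * ((n + m).choose n : ℚ)⁻¹ *
          ((n + min n m).choose n : ℚ)⁻¹ *
          ∑ j ∈ range (min n m), ((max n m + j).choose (max n m) : ℚ) *
            ((n + j).choose (n - 1) : ℚ)) := by
  rw [lhs_eq n m hn hm]
  have hn0 : (n : ℚ) ≠ 0 := by positivity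
  have hm0 : (m : ℚ) ≠ 0 := by positivity
  have hC : ((n + m).choose n : ℚ) ≠ 0 := by
    exact_mod_cast (Nat.choose_pos (by omega)).ne'
  have hCn : ((2 * n).choose n : ℚ) ≠ 0 := by
    exact_mod_cast (Nat.choose_pos (by omega)).ne'
  have hc : ∀ p : ℕ, c p 0 = ((2 * p).choose p : ℚ) := by
    intro p
    simp [c]
  have h1 := ident1 n m hn
  rw [hc, hc] at h1
  have hV : V n m = (n : ℚ) ^ 2 * ((2 * n).choose n : ℚ) ^ 2 * ((2 * m).choose m : ℚ) *
        (m * ((n + m).choose n : ℚ) ^ 2 - ((n : ℚ) + 2 * m) * R n m) /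
          (2 * ((n + m).choose n : ℚ) ^ 2) := by
    field_simp
    linarith
  rcases le_total m n with h | h
  · rw [min_eq_right h, max_eq_left h]
    have hR : ∑ j ∈ range m, ((n + j).choose n : ℚ) * ((n + j).choose (n - 1) : ℚ) = R n m := rfl
    rw [hR, hV]
    field_simp
  · rw [min_eq_left h, max_eq_right h]
    have hX : ∑ j ∈ range n, ((m + j).choose m : ℚ) * ((n + j).choose (n - 1) : ℚ) = X n m := rfl
    rw [hX]
    have h2 := ident2 n m hn
    have hXR : X n m = (n : ℚ) * ((2 * n).choose n : ℚ) * R n m /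
        ((m : ℚ) * ((n + m).choose n : ℚ)) := by
      field_simp
      linarith
    have h4 : ((n + n).choose n : ℚ) = ((2 * n).choose n : ℚ) := by rw [two_mul]
    rw [h4, hXR, hV]
    field_simp

end Pool.Agent.Results.MP_651eca_nt.FullIdentity
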